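import Pool.Agent.helper65.GD.SpecF

/-!
# MP_ea335c_an, row XDL: the data of a close-to-convex function
-/

set_option autoImplicit false

namespace Pool.Agent.GD

open Finset Metric Filter Topology

/-- **Row XDL** -/
theorem XDL (h1 : XCB_stmt) (h2 : XGR_stmt) (h3 : XEB_stmt) (h4 : XPB_stmt) (h5 : CTN_stmt) :
    XDL_stmt := by
  intro β κ hβ hκ
  have hpos : ∀ t : ℕ, (0 : ℝ) < 1 / ((t : ℝ) + 1) := fun t => by positivity
  choose N w x hat happ using fun t : ℕ => hβ t (1 / ((t : ℝ) + 1)) (hpos t)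
  have hν : ∀ m : ℕ, Tendsto (fun t => mom (w t) (x t) m) atTop (𝓝 (β m)) := by
    intro m
    rw [tendsto_iff_norm_sub_tendsto_zero]
    refine squeeze_zero' (Eventually.of_forall fun t => norm_nonneg _) ?_
      tendsto_one_div_add_atTop_nhds_zero_nat
    filter_upwards [eventually_ge_atTop m] with t ht
    exact (happ t m ht).le
  have hex : ∀ (s : ℂ) (k : ℕ), Tendsto (fun t => ex s (mom (w t) (x t)) k) atTop (𝓝 (ex s β k)) :=
    fun s k => h5 s β (ex s β) (fun t => mom (w t) (x t)) (fun t => ex s (mom (w t) (x t))) hν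
      (ex_rec s β) (fun t => ex_rec s _) k
  have hcv : ∀ i : ℕ, Tendsto (fun t => cv (ex (-2) (mom (w t) (x t))) κ i) atTop
      (𝓝 (cv (ex (-2) β) κ i)) := by
    intro i
    unfold cv
    exact tendsto_finsetSum _ fun r _ => (hex (-2) (i - r)).mul_const (κ r)
  have hD : Tendsto (fun t => 1 - ‖mom (w t) (x t) 1‖ ^ 2) atTop (𝓝 (1 - ‖β 1‖ ^ 2)) :=
    tendsto_const_nhds.sub ((hν 1).norm.pow 2)
  have hsum : ∀ A r : ℕ, Tendsto (fun t => ∑ i ∈ range r, ex 2 (mom (w t) (x t)) (A - i) *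
      cv (ex (-2) (mom (w t) (x t))) κ i) atTop
      (𝓝 (∑ i ∈ range r, ex 2 β (A - i) * cv (ex (-2) β) κ i)) := by
    intro A r
    exact tendsto_finsetSum _ fun i _ => (hex 2 (A - i)).mul (hcv i)
  have hβ1 : ∀ m, ‖β m‖ ≤ 1 := fun m => h1.1 β m hβ
  exact
    { D0 := by
        have h := hβ1 1
        have h0 := norm_nonneg (β 1)
        nlinarith
      g0 := ex_zero 2 β
      e0 := by
        unfold cv
        rw [Finset.sum_range_one, Nat.sub_self, ex_zero, hκ.1, one_mul]
      e1 := le_of_tendsto_of_tendsto' (hcv 1).norm (tendsto_const_nhds.sub hD)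
        fun t => (h3 (N t) (w t) (x t) κ (hat t) hκ).2.1
      e2 := le_of_tendsto' (hcv 2).norm fun t => (h3 (N t) (w t) (x t) κ (hat t) hκ).2.2.1
      e3 := fun i => le_of_tendsto' (hcv i).norm fun t =>
        (h3 (N t) (w t) (x t) κ (hat t) hκ).2.2.2 i
      gb := fun n => h2 β hβ1 n
      p1 := fun A hA => le_of_tendsto' (hsum (A + 1) 2).norm fun t =>
        (h4 (N t) (w t) (x t) κ A (hat t) hκ hA).1
      p2 := fun A r hA hr => le_of_tendsto_of_tendsto' (hsum (A + r) (r + 1)).norm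
        (tendsto_const_nhds.add ((tendsto_const_nhds.mul hD).mul tendsto_const_nhds))
        fun t => (h4 (N t) (w t) (x t) κ A (hat t) hκ hA).2 r hr }

end Pool.Agent.GD
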